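import Pool.Agent.N60.FD.TOP
import Pool.Agent.N60.FD.REL
import Pool.Agent.N60.FD.NEAR
import Pool.Agent.N60.FD.FIB
import Pool.Agent.N60.FD.BAD
import Pool.Agent.N60.FD.TREE
import Pool.Agent.N60.FD.FIN
import Pool.Agent.N60.FD.CORE
import Pool.Agent.N60.FD.ASY

/-!
# The gcd recursion for prime triples: `f(N) ≥ c √N log N / log log N`

The subtracted gcd at step `n` is at most `n + 6`, which gives only `f(N) ≥ (√2 - o(1)) √N`; the starting file SlowDescent has
`f(N) > √N (log N)^c` for `c < 1/4`. Here this is proved with the factor `c log N / log log N`, together with a bound, uniform in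
two parameters, for the decrease: if `x^2 y ≤ (c log N / log log N)^2` then `N - a_N(n) ≤ N / y` for all `n ≤ x √N`.

Proof. Write `μ_n = v_n / g_n`, where `v_n = n + b(n)` is the second argument of the gcd and `g_n` the gcd. If the decrease is too
fast, then at a positive proportion (`1 / (K D)`, powers of `log N`) of the steps `μ_n` is at most `K^2 D`. Let `n < n'` be two near
steps without a step `k` in between with `μ_k ≤ U μ_n μ_n'`. Then `(n' - n) a_n / n^2` is near a fraction with denominator
`μ_n μ_n'`; moreover `μ_n` divides `v_n` and `μ_n'` divides `v_n'`, so that such pairs are rare, in total, over all products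
`μ_n μ_n' ≤ N^(1/8)`. Hence between two near steps of most pairs with products `≤ N^(1/8)` there is always a step `k` with
`μ_k ≤ U μ_n μ_n'`: this makes a Farey tree in which `log μ` plays the part of the denominator. So the very large gcds force
`(log N / log log N)^2` times as many large gcds, and there are not so many steps.
-/

set_option autoImplicit false

namespace Pool.Agent.Results.MP_3f8e47_nt.FareyTreeOfJumps

open Pool.Agent.R701.GD (b)

/-- There are `c > 0` and `N₀` such that for all `N ≥ N₀`, for the recursion `a = a_N` of the problem (`b` is the 3-periodic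
sequence `2, 6, 0, …`): (1) `N - a(n) ≤ N / y` for all `n ≤ x √N`, whenever `x ≥ 1`, `y ≥ 2` and
`x² y ≤ (c log N / log log N)²`; (2) the zero `f = f(N)` satisfies `f > c √N log N / log log N`. -/
theorem result :
    ∃ c : ℝ, 0 < c ∧ ∃ N₀ : ℕ, ∀ N : ℕ, N₀ ≤ N → ∀ a : ℕ → ℤ, a 1 = (N : ℤ) - 6 →
      (∀ n : ℕ, 2 ≤ n → a n = a (n - 1) - ((Int.gcd (a (n - 1)) ((n + b n : ℕ) : ℤ) : ℕ) : ℤ)) →
      (∀ x y : ℝ, 1 ≤ x → 2 ≤ y → x ^ 2 * y ≤ (c * Real.log N / Real.log (Real.log N)) ^ 2 →
        ∀ n : ℕ, 1 ≤ n → (n : ℝ) ≤ √(N : ℝ) * x → (N : ℝ) - a n ≤ N / y) ∧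
      ∀ f : ℕ, IsLeast {n : ℕ | 1 ≤ n ∧ a n = 0} f →
        c * (√(N : ℝ) * (Real.log N / Real.log (Real.log N))) < f :=
  Pool.Agent.N60.FD.top2
    (Pool.Agent.N60.FD.core_main Pool.Agent.N60.FD.rel_main Pool.Agent.N60.FD.near_main Pool.Agent.N60.FD.fib_main
      Pool.Agent.N60.FD.bad_main Pool.Agent.N60.FD.tree_main Pool.Agent.N60.FD.fin_main)
    Pool.Agent.N60.FD.asy_main

end Pool.Agent.Results.MP_3f8e47_nt.FareyTreeOfJumps
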